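import Mathlib
import Pool.Agent.H94.MassDefs
import Pool.Agent.H94.MassProof

set_option autoImplicit false

namespace Pool.Agent.Results.MP_fe8c84_an.Comparison

open Pool.Agent.H94.MassDefs

theorem result (α : ℝ) (hα : 0 < α) (m₀ : ℝ → ℝ) (h₀ : ∀ ρ ≥ 0, 0 ≤ m₀ ρ) :
    (∀ u v : ℝ × ℝ → ℝ, IsSubsolution α m₀ u → IsSupersolution α m₀ v →
      ∀ t ≥ 0, ∀ ρ ≥ 0, u (t, ρ) ≤ v (t, ρ)) ∧
    (∀ u v : ℝ × ℝ → ℝ, IsSubsolution α m₀ u → IsSupersolution α m₀ u →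
      IsSubsolution α m₀ v → IsSupersolution α m₀ v →
      ∀ t ≥ 0, ∀ ρ ≥ 0, u (t, ρ) = v (t, ρ)) :=
  ⟨fun _ _ hu hv t ht ρ hρ => Pool.Agent.H94.MassProof.comparison hα h₀ hu hv t ρ ht hρ,
   fun _ _ hu hu' hv hv' t ht ρ hρ => le_antisymm
    (Pool.Agent.H94.MassProof.comparison hα h₀ hu hv' t ρ ht hρ)
    (Pool.Agent.H94.MassProof.comparison hα h₀ hv hu' t ρ ht hρ)⟩

end Pool.Agent.Results.MP_fe8c84_an.Comparison
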